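import Mathlib

/-!
# A Turing machine with finitely many states and symbols and undecidable halting problem

`exists_undecidable_tm0`: there are a Post-Turing machine `M` (Mathlib's `Turing.TM0.Machine`) with
alphabet `Fin (g + 1)` (blank symbol `0`) and state set `Fin (l + 1)` (initial state `0`), and
a computable map `inp` from natural numbers to input words, such that it is undecidable, given `k`,
whether `M` halts on the input `inp k`.
-/

namespace Pool.Agent.Lib.Halt56

open Turing Turing.PartrecToTM2

/-- The increment of a binary number written with the stack symbols of `PartrecToTM2`. -/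
def incG : List PartrecToTM2.Γ' → List PartrecToTM2.Γ'
  | [] => [PartrecToTM2.Γ'.bit1]
  | PartrecToTM2.Γ'.bit1 :: l => PartrecToTM2.Γ'.bit0 :: incG l
  | _ :: l => PartrecToTM2.Γ'.bit1 :: l

theorem trPosNum_succ (p : PosNum) : trPosNum p.succ = incG (trPosNum p) := by
  induction p with
  | one => rfl
  | bit1 p ih => simp only [PosNum.succ, trPosNum, incG, ih]
  | bit0 p ih => simp only [PosNum.succ, trPosNum, incG]

theorem trNat_succ (n : ℕ) : trNat (n + 1) = incG (trNat n) := by
  unfold trNat
  rw [Nat.cast_succ, Num.add_one]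
  cases (n : Num) with
  | zero => rfl
  | pos p => exact trPosNum_succ p

noncomputable instance primcodableG : Primcodable PartrecToTM2.Γ' :=
  Primcodable.ofEquiv (Fin (Fintype.card PartrecToTM2.Γ')) (Fintype.equivFin _)

theorem primrec_incG : Primrec incG := by
  have h : Primrec (fun l : List PartrecToTM2.Γ' =>
      (List.recOn l [PartrecToTM2.Γ'.bit1]
        (fun b l IH => if b = PartrecToTM2.Γ'.bit1 then PartrecToTM2.Γ'.bit0 :: IH
          else PartrecToTM2.Γ'.bit1 :: l) : List PartrecToTM2.Γ')) := by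
    refine Primrec.list_rec (f := fun l : List PartrecToTM2.Γ' => l)
      (g := fun _ : List PartrecToTM2.Γ' => [PartrecToTM2.Γ'.bit1])
      (h := fun (_ : List PartrecToTM2.Γ')
        (x : PartrecToTM2.Γ' × List PartrecToTM2.Γ' × List PartrecToTM2.Γ') =>
        if x.1 = PartrecToTM2.Γ'.bit1 then PartrecToTM2.Γ'.bit0 :: x.2.2
          else PartrecToTM2.Γ'.bit1 :: x.2.1) Primrec.id (Primrec.const _) ?_
    refine Primrec.ite (Primrec.eq.comp (Primrec.fst.comp Primrec.snd) (Primrec.const _)) ?_ ?_
    · exact Primrec.list_cons.comp (Primrec.const _) (Primrec.snd.comp (Primrec.snd.comp Primrec.snd))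
    · exact Primrec.list_cons.comp (Primrec.const _) (Primrec.fst.comp (Primrec.snd.comp Primrec.snd))
  refine h.of_eq fun l => ?_
  induction l with
  | nil => rfl
  | cons b l ih => cases b <;> simp_all [incG]

theorem primrec_trNat : Primrec trNat := by
  have h : Primrec (fun n : ℕ => (Nat.rec [] (fun _ IH => incG IH) n : List PartrecToTM2.Γ')) :=
    Primrec.nat_rec₁ _ (primrec_incG.comp Primrec.snd)
  refine h.of_eq fun n => ?_
  induction n with
  | zero => simp
  | succ n ih => rw [trNat_succ, ← ih]

theorem exists_equiv_fin {T : Type} [Finite T] (t : T) :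
    ∃ (n : ℕ) (e : T ≃ Fin (n + 1)), e t = 0 := by
  classical
  obtain ⟨m, ⟨e⟩⟩ := Finite.exists_equiv_fin T
  obtain ⟨n, rfl⟩ : ∃ n, m = n + 1 := by
    cases m with
    | zero => exact (e t).elim0
    | succ n => exact ⟨n, rfl⟩
  exact ⟨n, e.trans (Equiv.swap (e t) 0), by simp⟩

/-- A universal partial recursive function. -/
def univF (k : ℕ) : Part ℕ := Nat.Partrec.Code.eval (Denumerable.ofNat Nat.Partrec.Code k) 0

theorem partrec_univF : Partrec univF :=
  Nat.Partrec.Code.eval_part.comp (Computable.ofNat _) (Computable.const 0)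

theorem univF_undecidable : ¬ ComputablePred fun k => (univF k).Dom := by
  intro h
  refine ComputablePred.halting_problem 0 ?_
  refine ComputablePred.computable_of_manyOneReducible (q := fun k => (univF k).Dom) ?_ h
  refine ⟨fun c => Encodable.encode c, Computable.encode, fun c => ?_⟩
  simp [univF]

/-- A finite Turing machine with undecidable halting problem. -/
theorem exists_undecidable_tm0 : ∃ (g l : ℕ) (M : TM0.Machine (Fin (g + 1)) (Fin (l + 1)))
    (inp : ℕ → List (Fin (g + 1))), Computable inp ∧
      ¬ ComputablePred (fun k => (TM0.eval M (inp k)).Dom) := by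
  classical
  -- a code
  obtain ⟨c, hc⟩ := Turing.ToPartrec.Code.exists_code (Nat.Partrec'.part_iff₁.mpr partrec_univF)
  have hc1 : ∀ k, (c.eval [k]).Dom ↔ (univF k).Dom := by
    intro k
    have := hc ⟨[k], rfl⟩
    simp only at this
    rw [this]
    rfl
  -- the stack machine
  let inst : Inhabited PartrecToTM2.Λ' := ⟨PartrecToTM2.trNormal c Cont'.halt⟩
  have h2 : ∀ k, (TM2.eval PartrecToTM2.tr K'.main (trList [k])).Dom ↔ (univF k).Dom := by
    intro k
    rw [← hc1, TM2.eval]
    have e : (TM2.init K'.main (trList [k]) :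
        TM2.Cfg (fun _ : K' => PartrecToTM2.Γ') PartrecToTM2.Λ' (Option PartrecToTM2.Γ')) =
        PartrecToTM2.init c [k] := by
      unfold TM2.init PartrecToTM2.init
      have : Function.update (fun _ : K' => ([] : List PartrecToTM2.Γ')) K'.main (trList [k]) =
          K'.elim (trList [k]) [] [] [] := by
        funext x
        cases x <;> rfl
      rw [this]
      rfl
    rw [e, PartrecToTM2.tr_eval]
    rfl
  have s2 := PartrecToTM2.tr_supports c Cont'.halt
  -- the TM1 machine
  have h3 : ∀ k, (TM1.eval (TM2to1.tr PartrecToTM2.tr)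
      (TM2to1.trInit K'.main (trList [k]))).Dom ↔ (univF k).Dom := by
    intro k
    rw [← h2]
    exact TM2to1.tr_eval_dom _ _ _
  have s3 := TM2to1.tr_supports PartrecToTM2.tr s2
  -- the TM0 machine
  have h4 : ∀ k, (TM0.eval (TM1to0.tr (TM2to1.tr PartrecToTM2.tr))
      (TM2to1.trInit K'.main (trList [k]))).Dom ↔ (univF k).Dom := by
    intro k
    rw [← h3, TM1to0.tr_eval]
  have s4 := TM1to0.tr_supports (TM2to1.tr PartrecToTM2.tr) s3
  -- renaming
  let _ : Fintype K' := ⟨{K'.main, K'.rev, K'.aux, K'.stack}, by intro x; cases x <;> simp⟩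
  obtain ⟨g, e, he⟩ := exists_equiv_fin
    (default : TM2to1.Γ' K' (fun _ : K' => PartrecToTM2.Γ'))
  set S := (TM1to0.trStmts (TM2to1.tr PartrecToTM2.tr)
    (TM2to1.trSupp PartrecToTM2.tr (PartrecToTM2.codeSupp c Cont'.halt))) with hS
  have hdef : (default : TM1to0.Λ' (TM2to1.tr PartrecToTM2.tr)) ∈ S := s4.1
  obtain ⟨l, e', he'⟩ := exists_equiv_fin (T := {q // q ∈ S}) ⟨default, hdef⟩
  let f₁ : PointedMap (TM2to1.Γ' K' (fun _ : K' => PartrecToTM2.Γ')) (Fin (g + 1)) := ⟨e, he⟩
  let f₂ : PointedMap (Fin (g + 1)) (TM2to1.Γ' K' (fun _ : K' => PartrecToTM2.Γ')) :=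
    ⟨e.symm, by rw [Equiv.symm_apply_eq]; exact he.symm⟩
  let g₁ : PointedMap (TM1to0.Λ' (TM2to1.tr PartrecToTM2.tr)) (Fin (l + 1)) :=
    ⟨fun q => if h : q ∈ S then e' ⟨q, h⟩ else 0, by simp only [hdef, dif_pos]; exact he'⟩
  let g₂ : Fin (l + 1) → TM1to0.Λ' (TM2to1.tr PartrecToTM2.tr) := fun x => (e'.symm x).1
  have hf : Function.RightInverse f₁ f₂ := fun x => e.symm_apply_apply x
  have hg : ∀ q ∈ (S : Set (TM1to0.Λ' (TM2to1.tr PartrecToTM2.tr))), g₂ (g₁ q) = q := by
    intro q hq
    have hq' : q ∈ S := hq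
    show (e'.symm (if h : q ∈ S then e' ⟨q, h⟩ else 0)).1 = q
    rw [dif_pos hq', e'.symm_apply_apply]
  refine ⟨g, l, (TM1to0.tr (TM2to1.tr PartrecToTM2.tr)).map f₁ f₂ g₁ g₂,
    fun k => (TM2to1.trInit K'.main (trList [k])).map f₁, ?_, ?_⟩
  · -- computability
    have hcomp : ∀ k, (TM2to1.trInit K'.main (trList [k])).map f₁ =
        f₁ (true, Function.update (fun _ => none) K'.main (some PartrecToTM2.Γ'.cons)) ::
          ((trNat k).reverse).map (fun a => f₁
            (false, Function.update (fun _ => none) K'.main (some a))) := by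
      intro k
      simp [TM2to1.trInit]
    have hp : Primrec (fun k : ℕ =>
        f₁ (true, Function.update (fun _ => none) K'.main (some PartrecToTM2.Γ'.cons)) ::
          ((trNat k).reverse).map (fun a => f₁
            (false, Function.update (fun _ => none) K'.main (some a)))) := by
      refine Primrec.list_cons.comp (Primrec.const _) ?_
      refine Primrec.list_map (Primrec.list_reverse.comp primrec_trNat) ?_
      exact (Primrec.dom_finite (fun a : PartrecToTM2.Γ' => f₁
            (false, Function.update (fun _ => none) K'.main (some a)))).comp Primrec.snd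
    exact (hp.of_eq fun k => (hcomp k).symm).to_comp
  · intro h
    apply univF_undecidable
    refine h.of_eq fun k => ?_
    rw [← h4]
    have hmi := TM0.map_init f₁ g₁ (TM2to1.trInit K'.main (trList [k]))
    have := StateTransition.tr_eval_dom ((TM1to0.tr (TM2to1.tr PartrecToTM2.tr)).map_respects
      f₁ f₂ g₁ g₂ s4 hf hg)
      (a₁ := TM0.init (TM2to1.trInit K'.main (trList [k])))
      (a₂ := TM0.init ((TM2to1.trInit K'.main (trList [k])).map f₁)) ⟨s4.1, hmi⟩
    exact this

end Pool.Agent.Lib.Halt56
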